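import Pool.Agent.Helper23.DEC.Goals

/-!
# Packet LEGP: the conditions on a leg
-/

open Finset

namespace Pool.Agent.Helper31.DEC

open Pool.Agent.Helper98.Saw hiding iv
open Pool.Agent.Helper92.Eps
open Pool.Agent.Helper22.SB
open Pool.Agent.Helper22.FP
open Pool.Agent.Helper23.DEC

/-- The gates of a recorded step. -/
noncomputable def GX (γ : ℕ → V) (w Λ lo : ℕ) (x : ℕ × ℕ × Dat) : List (ℤ × ℤ) :=
  ((gl (K3 * w) x.2.2 (w * Λ)).take (2 * kg Λ)).map
    fun g => (g.1 + w * cr γ w lo x.1, g.2 + w * ck γ w lo x.1)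

lemma gpk_pks (γ : ℕ → V) (w Λ lo : ℕ) : ∀ (L : List (ℕ × ℕ × Dat)) (ρ κ : ℤ),
    gpk w Λ ρ κ (pks γ w lo ρ κ L) = L.flatMap (GX γ w Λ lo)
  | [], _, _ => rfl
  | x :: L, ρ, κ => by
    simp only [pks, gpk, List.flatMap_cons]
    have e1 : ρ + (cr γ w lo x.1 - ρ) = cr γ w lo x.1 := by ring
    have e2 : κ + (ck γ w lo x.1 - κ) = ck γ w lo x.1 := by ring
    rw [e1, e2, gpk_pks γ w Λ lo L]
    rfl

lemma length_pks (γ : ℕ → V) (w lo : ℕ) : ∀ (L : List (ℕ × ℕ × Dat)) (ρ κ : ℤ),
    (pks γ w lo ρ κ L).length = L.length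
  | [], _, _ => rfl
  | x :: L, ρ, κ => by
    simp only [pks, List.length_cons]
    rw [length_pks γ w lo L]

lemma w_le_v (w : ℕ) : (w : ℤ) ≤ ((K3 * w : ℕ) : ℤ) := by
  have : 1 * w ≤ K3 * w := Nat.mul_le_mul_right w (by rw [K3_eq]; norm_num)
  rw [one_mul] at this
  exact_mod_cast this

theorem LEGP : LEGP_stmt := by
  constructor
  · intro γ w Λ lo hi h r L hw hlh hbr hSL hpw
    have hw0 : (0 : ℤ) < w := by exact_mod_cast hw
    have hwv := w_le_v w
    set v : ℤ := ((K3 * w : ℕ) : ℤ) with hv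
    -- rows of the leg
    have hmem : ∀ u, lo ≤ u → u ≤ hi → nrm true (γ lo) (γ u) ∈
        (seg γ lo hi).map (nrm true (γ lo)) := by
      intro u h1 h2
      apply List.mem_map_of_mem
      unfold seg
      apply List.mem_map_of_mem
      rw [List.mem_range'_1]
      omega
    have hn2 : ∀ u, (nrm true (γ lo) (γ u)) 2 = (γ u) 2 - (γ lo) 2 + 1 := by
      intro u
      simp [nrm, e]
    have hnk : ∀ u, kk (nrm true (γ lo) (γ u)) = kk (γ u) - kk (γ lo) := by
      intro u
      simp [nrm, e, kk]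
      ring
    have hrow : ∀ u, lo ≤ u → u ≤ hi → (γ lo) 2 ≤ (γ u) 2 ∧ (γ u) 2 - (γ lo) 2 + 1 ≤ h := by
      intro u h1 h2
      have := hbr.row _ (hmem u h1 h2)
      rw [hn2] at this
      exact ⟨by linarith [this.1], this.2⟩
    have hcr : ∀ a, (w : ℤ) * cr γ w lo a ≤ (γ a) 2 - (γ lo) 2 ∧
        (γ a) 2 - (γ lo) 2 < w * cr γ w lo a + w := by
      intro a
      unfold cr
      exact ⟨Int.mul_ediv_self_le hw0.ne', Int.lt_mul_ediv_self_add hw0⟩
    have hck : ∀ a, (w : ℤ) * ck γ w lo a ≤ kk (γ a) - kk (γ lo) ∧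
        kk (γ a) - kk (γ lo) < w * ck γ w lo a + w := by
      intro a
      unfold ck
      exact ⟨Int.mul_ediv_self_le hw0.ne', Int.lt_mul_ediv_self_add hw0⟩
    have hgts : gts w Λ ⟨h / w, pks γ w lo 0 0 L, r⟩ = L.flatMap (GX γ w Λ lo) :=
      gpk_pks γ w Λ lo L 0 0
    -- bounds for the rows of the gates
    have hG : ∀ x ∈ L, ∀ G ∈ (GX γ w Λ lo x).map Prod.fst,
        64 * v + ((γ x.1) 2 - (γ lo) 2) - w < G ∧ G + 32 * v ≤ (γ x.2.1) 2 - (γ lo) 2 := by
      intro x hx G hGm
      unfold GX at hGm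
      rw [List.map_map, List.mem_map] at hGm
      obtain ⟨g, hg, rfl⟩ := hGm
      obtain ⟨g1, g2, -⟩ := (hSL x hx).win g hg
      have c := hcr x.1
      simp only [Function.comp_apply]
      constructor
      · linarith [c.2]
      · linarith [c.1]
    refine ⟨Nat.mul_div_le h w, ?_, ?_, ?_, ?_⟩
    · show h < w * (h / w + 1)
      have := Nat.lt_mul_div_succ h (show 0 < w by omega)
      exact this
    · rw [hgts]
      show _ = 2 * kg Λ * (pks γ w lo 0 0 L).length
      rw [length_pks, List.length_flatMap]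
      have : ∀ x ∈ L, (GX γ w Λ lo x).length = 2 * kg Λ := by
        intro x hx
        unfold GX
        rw [List.length_map]
        exact (hSL x hx).len
      rw [List.map_congr_left this, List.map_const', List.sum_replicate, smul_eq_mul, mul_comm]
    · rw [hgts, List.map_flatMap]
      apply List.Pairwise.isChain
      rw [List.pairwise_flatMap]
      constructor
      · intro x hx
        have hch := (hSL x hx).chain
        have htr : IsTrans ℤ (fun s t => s + 64 * v ≤ t) := ⟨fun a b c h1 h2 => by linarith⟩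
        have hp := List.isChain_iff_pairwise.1 hch
        unfold GX
        rw [List.map_map, List.pairwise_map]
        rw [List.pairwise_map] at hp
        refine hp.imp ?_
        intro a b hab
        simp only [Function.comp_apply]
        linarith
      · refine hpw.imp_of_mem ?_
        intro x y hx hy hxy G hG1 G' hG2
        have a1 := (hG x hx G hG1).2
        have a2 := (hG y hy G' hG2).1
        linarith
    · intro g hg
      rw [hgts, List.mem_flatMap] at hg
      obtain ⟨x, hx, hgx⟩ := hg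
      have hb1 := hG x hx g.1 (List.mem_map_of_mem hgx)
      have sl := hSL x hx
      have hra := hrow x.1 sl.la (by have := sl.ab; have := sl.bh; omega)
      have hrb := hrow x.2.1 (by have := sl.la; have := sl.ab; omega) sl.bh
      refine ⟨by linarith [hb1.1, hra.1], by linarith [hb1.2, hrb.2], ?_⟩
      intro z hz hz1 hz2
      unfold GX at hgx
      rw [List.mem_map] at hgx
      obtain ⟨g', hg', rfl⟩ := hgx
      obtain ⟨g1, g2, g3⟩ := sl.win g' hg'
      rw [List.mem_map] at hz
      obtain ⟨y, hy, rfl⟩ := hz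
      unfold seg at hy
      rw [List.mem_map] at hy
      obtain ⟨u, hu, rfl⟩ := hy
      rw [List.mem_range'_1] at hu
      rw [hn2] at hz1 hz2
      have c := hcr x.1
      have k := hck x.1
      simp only at hz1 hz2 ⊢
      have hrau : (γ x.1) 2 < (γ u) 2 := by linarith
      have hrub : (γ u) 2 < (γ x.2.1) 2 := by linarith
      obtain ⟨v1, v2⟩ := sl.vis u hu.1 (by omega) hrau hrub
      obtain ⟨q1, q2⟩ := g3 u v1 v2 (by rw [abs_le]; constructor <;> linarith)
      rw [hnk]
      constructor <;> linarith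
  · intro w Λ h r a hw
    refine ⟨Nat.mul_div_le h w, ?_, ?_, ?_, ?_⟩
    · show h < w * (h / w + 1)
      exact Nat.lt_mul_div_succ h (show 0 < w by omega)
    · simp [gts, gpk]
    · simp [gts, gpk]
    · intro g hg
      simp [gts, gpk] at hg

end Pool.Agent.Helper31.DEC
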